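import Mathlib
import Pool.Agent.N543.Iso4

/-!
No compact convex set of the plane has exactly two circular isoptics: two circular isoptics
force the set to be a disc, all of whose isoptics are circles.
-/

set_option autoImplicit false

open Real Set Metric

namespace Pool.Agent.Results.MP_08e0ef_gt.NoTwoCircular

/-- The Euclidean plane. -/
abbrev E2 := EuclideanSpace ℝ (Fin 2)

/-- The angle of sight of `S` at `P`: the opening angle of the cone formed by the rays from `P`
through the points of `S`, i.e. the supremum of the angles `∠ a P b` over `a, b ∈ S`. -/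
noncomputable def angleOfSight (S : Set E2) (P : E2) : ℝ :=
  sSup {t : ℝ | ∃ a ∈ S, ∃ b ∈ S, t = EuclideanGeometry.angle a P b}

/-- The isoptic of `S` at angle `α`: the points outside `S` at which the angle of sight is `α`. -/
def isoptic (S : Set E2) (α : ℝ) : Set E2 := {P | P ∉ S ∧ angleOfSight S P = α}

/-- `C` is a circle (of positive radius). -/
def IsCircle (C : Set E2) : Prop := ∃ (c : E2) (R : ℝ), 0 < R ∧ C = sphere c R

/-- The set of all `α ∈ (0, π)` for which the isoptic of `S` at `α` is a circle. -/
def circularAngles (S : Set E2) : Set ℝ := {α | α ∈ Ioo 0 π ∧ IsCircle (isoptic S α)}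

lemma circularAngles_closedBall (c : E2) {r : ℝ} (hr : 0 < r) :
    circularAngles (closedBall c r) = Ioo 0 π := by
  ext γ
  constructor
  · intro h; exact h.1
  · intro h
    refine ⟨h, c, r / sin (γ / 2), ?_, ?_⟩
    · have : 0 < sin (γ / 2) :=
        sin_pos_of_pos_of_lt_pi (by linarith [h.1]) (by linarith [h.1, h.2])
      positivity
    · exact Pool.Agent.N543.Iso.isoptic_closedBall c hr h

/-- **Negative answer to Q1.** A compact convex subset `S` of the plane never has exactly two
circular isoptics. More precisely, either at most one `α ∈ (0, π)` has a circular isoptic, or `S`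
is a disc of positive radius and then all `α ∈ (0, π)` have circular isoptics. -/
theorem result (S : Set E2) (hS : IsCompact S) (hconv : Convex ℝ S) :
    (circularAngles S).encard ≠ 2 ∧
    ((circularAngles S).Subsingleton ∨
      ((∃ (c : E2) (r : ℝ), 0 < r ∧ S = closedBall c r) ∧ circularAngles S = Ioo 0 π)) := by
  have key : (circularAngles S).Subsingleton ∨
      ((∃ (c : E2) (r : ℝ), 0 < r ∧ S = closedBall c r) ∧ circularAngles S = Ioo 0 π) := by
    by_cases hsub : (circularAngles S).Subsingleton
    · exact Or.inl hsub
    · right
      obtain ⟨α, ⟨hα, c, R, hR, h⟩, α', ⟨hα', c', R', hR', h'⟩, hne⟩ :=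
        Set.not_subsingleton_iff.1 hsub
      obtain ⟨d, r, hr, hSd⟩ :=
        Pool.Agent.N543.Iso.main hS hconv hα hα' hne hR hR' h h'
      refine ⟨⟨d, r, hr, hSd⟩, ?_⟩
      rw [hSd]
      exact circularAngles_closedBall d hr
  refine ⟨?_, key⟩
  intro h2
  rcases key with h | ⟨-, h⟩
  · have := Set.encard_le_one_iff_subsingleton.2 h
    rw [h2] at this
    norm_num at this
  · have hinf : (circularAngles S).Infinite := by
      rw [h]; exact Ioo_infinite Real.pi_pos
    rw [Set.Infinite.encard_eq hinf] at h2
    exact absurd h2 (by decide)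

end Pool.Agent.Results.MP_08e0ef_gt.NoTwoCircular
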